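import Pool.Agent.Helper51.PP.Spec

set_option autoImplicit false

/-! Part CH4: the recursion of Nash's inequality. -/

namespace Pool.Agent.Helper25.PC.CH4

open Pool.Agent.Helper51.PP

theorem one_sub_rpow {x α : ℝ} (hx : x < 1) (hα : 0 < α) :
    1 + α * x ≤ (1 - x) ^ (-α) := by
  have h1 : (0 : ℝ) < 1 - x := by linarith
  rw [Real.rpow_def_of_pos h1]
  have h2 : Real.log (1 - x) ≤ -x := by
    have := Real.log_le_sub_one_of_pos h1
    linarith
  have h3 : α * x ≤ Real.log (1 - x) * -α := by nlinarith
  have h4 := Real.add_one_le_exp (Real.log (1 - x) * -α)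
  linarith

theorem main : S_CH4 := by
  intro d hd c hc
  have hd0 : (0 : ℝ) < d := by
    have : 0 < d := by omega
    exact_mod_cast this
  set α : ℝ := 2 / (d : ℝ) with hα
  have hα0 : 0 < α := by positivity
  refine ⟨(α * c) ^ (-((d : ℝ) / 2)), by positivity, ?_⟩
  intro a ha hstep n hn
  have key : ∀ n : ℕ, a n = 0 ∨ (0 < a n ∧ α * c * n ≤ (a n) ^ (-α)) := by
    intro n
    induction n with
    | zero =>
      rcases (ha 0).eq_or_lt with h | h
      · exact Or.inl h.symm
      · refine Or.inr ⟨h, ?_⟩
        simp only [Nat.cast_zero, mul_zero]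
        exact (Real.rpow_pos_of_pos h _).le
    | succ n ih =>
      rcases (ha (n + 1)).eq_or_lt with h | h
      · exact Or.inl h.symm
      · refine Or.inr ⟨h, ?_⟩
        have h1 := hstep n
        have hn0 : 0 < a n := by
          rcases (ha n).eq_or_lt with h2 | h2
          · rw [← h2] at h1
            have h3 : (0 : ℝ) ≤ c * (0 : ℝ) ^ (1 + α) :=
              mul_nonneg hc.le (Real.rpow_nonneg le_rfl _)
            linarith
          · exact h2
        obtain h4 | ⟨_, h5⟩ := ih
        · exact absurd h4 hn0.ne'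
        have h6 : (a n) ^ (1 + α) = a n * (a n) ^ α := by
          rw [Real.rpow_add hn0, Real.rpow_one]
        rw [h6] at h1
        set x : ℝ := c * (a n) ^ α with hx
        have h7 : a (n + 1) ≤ a n * (1 - x) := by
          rw [hx]; linarith
        have hx1 : x < 1 := by
          by_contra hcon
          have : a n * (1 - x) ≤ 0 :=
            mul_nonpos_of_nonneg_of_nonpos hn0.le (by linarith [not_lt.1 hcon])
          linarith
        have h8 : (a n * (1 - x)) ^ (-α) ≤ (a (n + 1)) ^ (-α) :=
          Real.rpow_le_rpow_of_nonpos h h7 (by linarith)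
        refine le_trans ?_ h8
        rw [Real.mul_rpow hn0.le (by linarith)]
        have h9 := one_sub_rpow hx1 hα0
        have h10 : 0 < (a n) ^ (-α) := Real.rpow_pos_of_pos hn0 _
        have h11 : (a n) ^ (-α) * x = c := by
          rw [hx, Real.rpow_neg hn0.le]
          have : (a n) ^ α ≠ 0 := (Real.rpow_pos_of_pos hn0 _).ne'
          field_simp
        calc α * c * ((n + 1 : ℕ) : ℝ) = α * c * n + α * c := by push_cast; ring
          _ ≤ (a n) ^ (-α) + α * ((a n) ^ (-α) * x) := by rw [h11]; linarith
          _ = (a n) ^ (-α) * (1 + α * x) := by ring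
          _ ≤ (a n) ^ (-α) * (1 - x) ^ (-α) := mul_le_mul_of_nonneg_left h9 h10.le
  have hn0 : (0 : ℝ) < n := by exact_mod_cast hn
  rcases key n with h | ⟨h, h1⟩
  · rw [h]
    positivity
  · have h2 : 0 < α * c * n := by positivity
    have h3 : ((a n) ^ (-α)) ^ (-((d : ℝ) / 2)) ≤ (α * c * n) ^ (-((d : ℝ) / 2)) :=
      Real.rpow_le_rpow_of_nonpos h2 h1 (by linarith)
    rw [← Real.rpow_mul h.le] at h3
    have h4 : -α * -((d : ℝ) / 2) = 1 := by rw [hα]; field_simp
    rw [h4, Real.rpow_one, Real.mul_rpow (by positivity) hn0.le] at h3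
    exact h3

end Pool.Agent.Helper25.PC.CH4
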